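import Mathlib
import Pool.Agent.Helper292.ForceCH
import Pool.Agent.H504.BQ.Main
import Pool.Agent.H504.BQ.Groups

/-!
# The real line as a union of `ω₂` additive `F_σ` semigroups when the continuum is `ω₃`

Over a model of the continuum hypothesis, a finite support iteration of length `ω₃ + ω₂ · 2` adds
Cohen reals and, at cofinally many coordinates `k < ω₂`, an `F_σ` subset `C_k` of the Cantor space,
by finite approximations with side conditions, such that the sets `C_k` are pairwise disjoint and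
their union `T` is a maximal set of points whose binary values are algebraically independent over
the rational numbers. So the values of the points of `T` form a transcendence basis of the real
numbers, and there are the partial derivatives `∂ x / ∂ t`, `t ∈ T`, of each real number `x`. For
each `k` consider the greatest `t ∈ C_k` such that `∂ x / ∂ t ≠ 0`, and put `k` in `a` or `b` if
this derivative is positive or negative. The set of all positive `x` with a given pair `(a, b)` of
finite subsets of `ω₂` is closed under addition and sigma-compact. These sets, their negatives and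
`{0}` form a partition. The number of pieces is at most `ω₂`, and at least `ω₂` because of the Cohen
reals.
-/

set_option autoImplicit false

open Cardinal

namespace Pool.Agent.Results.MP_02ff8e_lc.FsigmaSemigroups

open Pool.Agent.H504.BP (HH FH SafeA safeHyp)
open Pool.Agent.H504.BQ (NoCov FNoCov ContLe FsigmaPartition group_partition exists_poset
  bounded_of pow_of_ch)
open Pool.Agent.Helper669.Forcing (CardinalsPreserved)
open Pool.Agent.Helper292.ForceCH (OmegaOnePreserved CHHolds)

/-- The well order `ω_n`. -/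
abbrev Om (n : ℕ) : Type := (ℵ_ n : Cardinal.{0}).ord.ToType

theorem mk_Om (n : ℕ) : #(Om n) = ℵ_ n := by
  rw [mk_toType, card_ord]

theorem aleph2 : (ℵ_ (2 : ℕ) : Cardinal.{0}) = Order.succ ℵ₁ := by
  rw [succ_aleph]
  congr 1
  norm_num

theorem aleph3 : (ℵ_ (3 : ℕ) : Cardinal.{0}) = Order.succ (Order.succ ℵ₁) := by
  rw [succ_aleph, succ_aleph]
  congr 1
  norm_num

theorem bounded2 {c κ : Cardinal.{0}} (h : c = Order.succ κ) (hκ : ℵ₀ ≤ κ)
    (S : Set c.ord.ToType) (hS : #S ≤ κ) : ∃ b, ∀ s ∈ S, s < b := by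
  subst h
  exact bounded_of hκ S hS

/-- It is consistent with ZFC that the continuum is `ω₃` and the real line is partitioned into
`ω₂` additive `F_σ` semigroups. -/
theorem result :
    (∀ (K Y Z : Type) [LinearOrder K], #K = ℵ_ 2 → #Y = ℵ_ 1 → #Z = ℵ_ 3 →
      HH SafeA K → NoCov Y → (∃ E : Z → ℕ → Bool, ∀ x : ℕ → Bool, ∃ z, x = E z) →
      (𝔠 : Cardinal.{0}) = ℵ_ 3 ∧ ∃ Q : Set (Set ℝ), FsigmaPartition Q ∧ #Q = ℵ_ 2) ∧
    ((𝔠 : Cardinal.{0}) = ℵ_ 1 → ∃ (P : Type) (_ : Preorder P), Nonempty P ∧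
      ∀ p : P, p ∈ CardinalsPreserved.{0, 0} P ∧ p ∈ FH SafeA P (Om 2) ∧ p ∈ FNoCov P (Om 1) ∧
        p ∈ ContLe P (Om 3)) ∧
    ∃ (P : Type) (_ : Preorder P), Nonempty P ∧
      ∀ p : P, p ∈ OmegaOnePreserved P ∧ p ∈ CHHolds P := by
  have h01 : (ℵ₀ : Cardinal.{0}) ≤ ℵ₁ := aleph0_le_aleph 1
  have h2 : (ℵ_ 2 : Cardinal.{0}) = Order.succ ℵ₁ := aleph2
  have h3 : (ℵ_ 3 : Cardinal.{0}) = Order.succ (Order.succ ℵ₁) := aleph3
  refine ⟨?_, ?_, ?_⟩
  · intro K Y Z _ hK hY hZ hH hN hE
    have hYinf : Infinite Y := by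
      rw [infinite_iff, hY]
      exact h01
    have hnot := hH.2
    obtain ⟨Q, hQ, hQK⟩ := group_partition (K := K) (Y := Y) (by rw [hK, hY, h2]) hH hN
    refine ⟨?_, Q, hQ, hQK.trans hK⟩
    have hB : #(ℕ → Bool) = 𝔠 := by simp
    apply le_antisymm
    · obtain ⟨E, hE⟩ := hE
      have hs : Function.Surjective E := fun x => by
        obtain ⟨z, hz⟩ := hE x
        exact ⟨z, hz.symm⟩
      have h4 := mk_le_of_surjective hs
      rwa [hB, hZ] at h4
    · rw [h3, ← h2, ← hK]
      refine Order.succ_le_of_lt ?_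
      by_contra hcon
      rw [not_lt, ← hB] at hcon
      obtain ⟨f⟩ := hcon
      apply hnot
      have : Nonempty (ℕ → Bool) := ⟨fun _ => false⟩
      exact ⟨Function.invFun f, fun x => ⟨f x, (Function.leftInverse_invFun f.injective x).symm⟩⟩
  · intro hCH
    have hne : Nonempty (Om 2) := by
      rw [← mk_ne_zero_iff, mk_Om, aleph2]
      exact (aleph0_pos.trans_le (h01.trans (Order.le_succ _))).ne'
    obtain ⟨P, hP, h4, h5⟩ := exists_poset (K := Om 2) (μ := ℵ₁)
      (κ := Order.succ (Order.succ ℵ₁)) safeHyp.hanti safeHyp.hnil h01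
      (fun S hS => bounded2 aleph2 h01 S hS)
      ((h01.trans (Order.le_succ _)).trans_lt (Order.lt_succ _)) (pow_of_ch hCH) (by
        rw [mk_Om, aleph2]
        exact Order.lt_succ _)
    refine ⟨P, hP, h4, fun p => ⟨(h5 p).1, (h5 p).2.1, (h5 p).2.2.1 _ ?_, (h5 p).2.2.2 _ ?_⟩⟩
    · rw [mk_Om]
      simp
    · rw [mk_Om, aleph3]
  · obtain ⟨P, hP, h1, h2⟩ := Pool.Agent.Helper292.ForceCH.exists_forcing
    exact ⟨P, hP, h1, fun p => ⟨(h2 p).1, (h2 p).2.2⟩⟩

end Pool.Agent.Results.MP_02ff8e_lc.FsigmaSemigroups
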